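import Pool.Agent.H51.EqTD

namespace Pool.Agent.Results.MP_bf2f06_lc.Equal

open Pool.Agent.H51.EqT Filter Topology

theorem result (V : Type) [Fintype V] [DecidableEq V] [Nontrivial V] (G : SimpleGraph V)
    (hG : G.Connected) :
    Tendsto (fun n : ℕ => (cost G n : ℝ) / n) atTop (𝓝 (fc G)) :=
  tendsto_fc hG

end Pool.Agent.Results.MP_bf2f06_lc.Equal
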